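import Pool.Agent.L7h82.RL.Stm

set_option autoImplicit false
set_option linter.unusedSectionVars false

/-! Project RL: products of values at roots of unity (`S_CYC`). -/

namespace Pool.Agent.L7h50.RL

open NumberField IsDedekindDomain
open scoped ComplexConjugate
open Pool.Agent.L7h82.RL
open Pool.Agent.K4H55.CX (br)

/-- a polynomial value at a root of unity which is invariant under the automorphisms is an integer -/
theorem cyc_int {N : ℕ} (hN : N ≠ 0) {ζ : ℂ} (hζ : IsPrimitiveRoot ζ N) (P : Polynomial ℤ)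
    (h : ∀ k : ℕ, k.Coprime N → Polynomial.aeval (ζ ^ k) P = Polynomial.aeval ζ P) :
    ∃ r : ℤ, Polynomial.aeval ζ P = (r : ℂ) := by
  have i1 : NeZero N := ⟨hN⟩
  have i2 : NeZero ((N : ℕ) : ℚ) := ⟨by exact_mod_cast hN⟩
  have i3 : IsCyclotomicExtension {N} ℚ (CyclotomicField N ℚ) := CyclotomicField.isCyclotomicExtension N ℚ
  have i4 : IsGalois ℚ (CyclotomicField N ℚ) := IsCyclotomicExtension.isGalois {N} ℚ (CyclotomicField N ℚ)
  have i5 : FiniteDimensional ℚ (CyclotomicField N ℚ) :=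
    IsCyclotomicExtension.finiteDimensional {N} ℚ (CyclotomicField N ℚ)
  obtain ⟨z, hz⟩ : ∃ z : CyclotomicField N ℚ, IsPrimitiveRoot z N :=
    ⟨_, IsCyclotomicExtension.zeta_spec N ℚ (CyclotomicField N ℚ)⟩
  -- an embedding
  let φ : CyclotomicField N ℚ →ₐ[ℚ] ℂ := IsAlgClosed.lift
  have hφ : IsPrimitiveRoot (φ z) N := hz.map_of_injective φ.injective
  obtain ⟨i, hi, hc, hzi⟩ := hφ.isPrimitiveRoot_iff.1 hζ
  have hz' : IsPrimitiveRoot (z ^ i) N := hz.pow_of_coprime i hc
  have hφz : φ (z ^ i) = ζ := by rw [map_pow, hzi]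
  have hval : ∀ w : CyclotomicField N ℚ, φ (Polynomial.aeval w P) = Polynomial.aeval (φ w) P := by
    intro w
    exact (Polynomial.aeval_algHom_apply (φ : CyclotomicField N ℚ →+* ℂ).toIntAlgHom w P).symm
  have hfix : ∀ f : Gal(CyclotomicField N ℚ/ℚ), f (Polynomial.aeval (z ^ i) P) = Polynomial.aeval (z ^ i) P := by
    intro f
    have h1 : f (Polynomial.aeval (z ^ i) P) = Polynomial.aeval (f (z ^ i)) P :=
      (Polynomial.aeval_algHom_apply
        ((f : CyclotomicField N ℚ ≃+* CyclotomicField N ℚ) :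
          CyclotomicField N ℚ →+* CyclotomicField N ℚ).toIntAlgHom (z ^ i) P).symm
    have h2 : IsPrimitiveRoot (f (z ^ i)) N := hz'.map_of_injective f.injective
    obtain ⟨k, -, hk, hfk⟩ := hz'.isPrimitiveRoot_iff.1 h2
    have h3 : φ (f (Polynomial.aeval (z ^ i) P)) = φ (Polynomial.aeval (z ^ i) P) := by
      rw [h1, ← hfk, hval, hval, map_pow, hφz]
      exact h k hk
    exact φ.injective h3
  obtain ⟨q, hq⟩ := (IsGalois.mem_range_algebraMap_iff_fixed _).2 hfix
  have hq2 : Polynomial.aeval ζ P = (q : ℂ) := by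
    rw [← hφz, ← hval, ← hq]
    simp
  have hint : IsIntegral ℤ (Polynomial.aeval ζ P) := by
    have h1 : IsIntegral ℤ ζ := hζ.isIntegral (Nat.pos_of_ne_zero hN)
    exact IsIntegral.of_mem_of_fg _ (h1.fg_adjoin_singleton) _ (Polynomial.aeval_mem_adjoin_singleton ℤ ζ)
  rw [hq2] at hint ⊢
  have h3 : IsIntegral ℤ q := by
    have : ((q : ℚ) : ℂ) = algebraMap ℚ ℂ q := rfl
    rw [this] at hint
    exact (isIntegral_algebraMap_iff (algebraMap ℚ ℂ).injective).1 hint
  obtain ⟨r, hr⟩ := IsIntegrallyClosed.isIntegral_iff.1 h3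
  refine ⟨r, ?_⟩
  rw [← hr]
  simp

theorem s_CYC : S_CYC := by
  intro 𝒢 _ _ A T hA hT
  have hN : Nat.card 𝒢 ≠ 0 := Nat.card_pos.ne'
  have hζ := Complex.isPrimitiveRoot_exp (Nat.card 𝒢) hN
  obtain ⟨r, hr⟩ := cyc_int hN hζ (∏ g ∈ A, T g) (by
    intro k hk
    rw [map_prod, map_prod]
    have hinj : Set.InjOn (fun g : 𝒢 => g ^ k) (A : Set 𝒢) := by
      intro g _ h _ hgh
      exact (powCoprime (Nat.coprime_comm.1 hk)).injective hgh
    rw [Finset.prod_congr rfl (fun g hg => hT g hg k hk)]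
    classical
    have h1 : A.image (fun g => g ^ k) = A := by
      apply Finset.eq_of_subset_of_card_le
      · intro g hg
        obtain ⟨h, hh, rfl⟩ := Finset.mem_image.1 hg
        exact hA h hh k hk
      · rw [Finset.card_image_of_injOn hinj]
    conv_rhs => rw [← h1]
    rw [Finset.prod_image hinj])
  refine ⟨r, ?_⟩
  rw [← hr, map_prod]

end Pool.Agent.L7h50.RL
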