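import Pool.Agent.L7h82.RL.Stm

set_option autoImplicit false
set_option linter.unusedSectionVars false

/-! Project RL: the product of the Gauss sums (`S_GS`). -/

namespace Pool.Agent.L7h50.RL

open NumberField IsDedekindDomain
open scoped ComplexConjugate
open Pool.Agent.L7h82.RL
open Pool.Agent.K4H55.CX (br)

lemma gn_span {K : Type} [Field K] [NumberField K] [IsPrincipalIdealRing (𝓞 K)] (𝔣 : Ideal (𝓞 K)) :
    Ideal.span {gn 𝔣} = 𝔣 := Ideal.span_singleton_generator 𝔣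

theorem s_GS : S_GS := by
  intro hPCK hGM hPOW K _ _ _ σ δ h 𝒢 _ _ 𝔣 χ hP hm
  obtain ⟨-, -, -, h4⟩ := hPOW K 𝒢 𝔣 χ hP hm
  obtain ⟨G, hG⟩ : ∃ G : 𝒢 → ℂ, ∀ g, G g = gm (K4H55.BI.ordK h) (gn (𝔣 g)) (χ g) := ⟨_, fun _ => rfl⟩
  have h1 : ∀ g, gm (K4H55.BI.ordK h) (gn (𝔣 g)) (br (χ g)) = conj (G g) ∧
      G g * conj (G g) = (Ideal.absNorm (𝔣 g) : ℂ) := by
    intro g
    obtain ⟨hm0, hPC⟩ := hPCK K (𝔣 g) (χ g) (hP g)
    obtain ⟨-, -, h5⟩ := hGM (𝓞 K) (K4H55.BI.ordK h) (gn (𝔣 g)) (χ g) hm0 hPC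
    obtain ⟨h6, h7⟩ := h5 ((hP g).unit (-1) isUnit_one.neg)
    rw [← hG] at h6 h7
    refine ⟨h6, ?_⟩
    rw [← h6, h7]
    have h8 : (K4H55.BI.ordK h).nm (gn (𝔣 g)) = Ideal.absNorm (𝔣 g) := by
      conv_rhs => rw [← gn_span (𝔣 g), Ideal.absNorm_span_singleton]
      rfl
    rw [h8]
  have h2 : ∀ g, gm (K4H55.BI.ordK h) (gn (𝔣 g)) (br (χ g)) = G g⁻¹ := by
    intro g
    rw [hG, (h4 g).1, (h4 g).2]
  obtain ⟨W, hW⟩ : ∃ W : ℂ, W = ∏ g, gm (K4H55.BI.ordK h) (gn (𝔣 g)) (br (χ g)) := ⟨_, rfl⟩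
  have hW1 : W = conj (∏ g, G g) := by
    rw [hW, map_prod]
    exact Finset.prod_congr rfl fun g _ => (h1 g).1
  have hW2 : W = ∏ g, G g := by
    rw [hW, Finset.prod_congr rfl fun g _ => h2 g]
    exact Equiv.prod_comp (Equiv.inv 𝒢) G
  have hW3 : conj W = W := by
    conv_lhs => rw [hW2]
    rw [← hW1]
  obtain ⟨w, hw⟩ := Complex.conj_eq_iff_real.1 hW3
  have hsq : w ^ 2 = ∏ g, (Ideal.absNorm (𝔣 g) : ℝ) := by
    have h5 : W * W = ∏ g, (Ideal.absNorm (𝔣 g) : ℂ) := by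
      nth_rewrite 1 [hW2]
      rw [hW1, map_prod, ← Finset.prod_mul_distrib]
      exact Finset.prod_congr rfl fun g _ => (h1 g).2
    rw [hw] at h5
    have h6 : ((w ^ 2 : ℝ) : ℂ) = ((∏ g, (Ideal.absNorm (𝔣 g) : ℝ) : ℝ) : ℂ) := by
      push_cast
      rw [← h5]
      ring
    exact_mod_cast h6
  have habs : √(∏ g, (Ideal.absNorm (𝔣 g) : ℝ)) = |w| := by
    rw [← hsq, Real.sqrt_sq_eq_abs]
  rcases le_total 0 w with h0 | h0
  · refine ⟨1, Or.inl rfl, ?_⟩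
    rw [← hW, hw, habs, abs_of_nonneg h0, one_mul]
  · refine ⟨-1, Or.inr rfl, ?_⟩
    rw [← hW, hw, habs, abs_of_nonpos h0]
    congr 1
    ring

end Pool.Agent.L7h50.RL
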