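import Pool.Agent.L7h82.RL.Stm

set_option autoImplicit false
set_option linter.unusedSectionVars false

/-! Project RL: conductors of powers (`S_POW`). -/

namespace Pool.Agent.L7h50.RL

open NumberField IsDedekindDomain
open scoped ComplexConjugate
open Pool.Agent.L7h82.RL
open Pool.Agent.K4H55.CX (br)

section pow

variable {K : Type} [Field K] [NumberField K] {𝒢 : Type} [CommGroup 𝒢] [Finite 𝒢]
  {𝔣 : 𝒢 → Ideal (𝓞 K)} {χ : 𝒢 → 𝓞 K → ℂ} (hP : ∀ g, PK (𝔣 g) (χ g))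
  (hm : ∀ g h x, χ g x ≠ 0 → χ h x ≠ 0 → χ (g * h) x = χ g x * χ h x)

include hP hm

omit [Finite 𝒢] in
lemma pw_one (x : 𝓞 K) : χ 1 x = 1 := by
  have h1 : ∀ x, χ 1 x ≠ 0 → χ 1 x = 1 := by
    intro x hx
    have h2 := hm 1 1 x hx hx
    rw [mul_one] at h2
    exact mul_left_cancel₀ hx (by rw [← h2, mul_one])
  have h3 : 𝔣 1 = ⊤ := by
    by_contra h
    obtain ⟨y, -, h4, h5⟩ := (hP 1).prim ⊤ (lt_top_iff_ne_top.2 h)
    exact h5 (h1 y h4)
  apply h1
  intro h0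
  obtain ⟨v, hv, -⟩ := ((hP 1).zero x).1 h0
  rw [h3, top_le_iff] at hv
  exact v.isPrime.ne_top hv

omit [Finite 𝒢] in
lemma pw_pow (g : 𝒢) {x : 𝓞 K} (hx : χ g x ≠ 0) (j : ℕ) : χ (g ^ j) x = χ g x ^ j := by
  induction j with
  | zero => rw [pow_zero, pow_zero, pw_one hP hm]
  | succ j ih =>
    have h1 : χ (g ^ j) x ≠ 0 := by
      rw [ih]
      exact pow_ne_zero _ hx
    rw [pow_succ, hm _ _ x h1 hx, ih, pow_succ]

lemma pw_card (g : 𝒢) {x : 𝓞 K} (hx : χ g x ≠ 0) : χ g x ^ Nat.card 𝒢 = 1 := by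
  rw [← pw_pow hP hm g hx, pow_card_eq_one', pw_one hP hm]

omit hm [Finite 𝒢] [CommGroup 𝒢] in
lemma pw_le {g h : 𝒢} {k : ℕ} (H : ∀ x, χ h x ≠ 0 → χ h x = χ g x ^ k) : 𝔣 g ≤ 𝔣 h := by
  by_contra hno
  have h1 : 𝔣 h < 𝔣 g ⊔ 𝔣 h := by
    refine lt_of_le_of_ne le_sup_right fun h2 => hno ?_
    rw [h2]
    exact le_sup_left
  obtain ⟨x, hx, h2, h3⟩ := (hP h).prim _ h1
  obtain ⟨a, ha, b, hb, hab⟩ := Submodule.mem_sup.1 hx
  have h4 : χ h x = χ h (1 + a) := (hP h).prd _ _ (by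
    have : x - (1 + a) = b := by linear_combination -hab
    rw [this]
    exact hb)
  have h5 : χ g (1 + a) = 1 := by
    rw [(hP g).prd (1 + a) 1 (by simpa using ha), (hP g).one]
  rw [h4] at h2 h3
  apply h3
  rw [H _ h2, h5, one_pow]

lemma pw_zero (g : 𝒢) {k : ℕ} (hk : k.Coprime (Nat.card 𝒢)) {x : 𝓞 K} (hx : χ (g ^ k) x ≠ 0) :
    χ g x ≠ 0 := by
  obtain ⟨k', hk'⟩ := exists_pow_eq_self_of_coprime (x := g) (hk.coprime_dvd_right (orderOf_dvd_natCard g))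
  rw [← hk', pw_pow hP hm _ hx]
  exact pow_ne_zero _ hx

lemma pw_all (g : 𝒢) {k : ℕ} (hk : k.Coprime (Nat.card 𝒢)) :
    𝔣 (g ^ k) = 𝔣 g ∧ ∀ x, χ (g ^ k) x = χ g x ^ k := by
  constructor
  · apply le_antisymm
    · obtain ⟨k', hk'⟩ := exists_pow_eq_self_of_coprime (x := g) (hk.coprime_dvd_right (orderOf_dvd_natCard g))
      apply pw_le hP (k := k')
      intro x hx
      have hx' : χ (g ^ k) x ≠ 0 := by
        rw [pw_pow hP hm g hx]
        exact pow_ne_zero _ hx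
      conv_lhs => rw [← hk', pw_pow hP hm _ hx']
    · apply pw_le hP (k := k)
      intro x hx
      exact pw_pow hP hm g (pw_zero hP hm g hk hx) k
  · intro x
    by_cases hx : χ g x = 0
    · have h1 : χ (g ^ k) x = 0 := by
        by_contra h
        exact pw_zero hP hm g hk h hx
      rw [h1, hx]
      by_cases hk0 : k = 0
      · exfalso
        rw [hk0, pow_zero, pw_one hP hm] at h1
        exact one_ne_zero h1
      · rw [zero_pow hk0]
    · exact pw_pow hP hm g hx k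

lemma pw_inv (g : 𝒢) : 𝔣 g⁻¹ = 𝔣 g ∧ χ g⁻¹ = br (χ g) := by
  have hN : 0 < Nat.card 𝒢 := Nat.card_pos
  obtain ⟨M, hM⟩ := Nat.exists_eq_succ_of_ne_zero hN.ne'
  have hk : M.Coprime (Nat.card 𝒢) := by
    rw [hM]
    simp
  have h1 : g⁻¹ = g ^ M := by
    rw [inv_eq_iff_mul_eq_one, ← pow_succ', ← Nat.succ_eq_add_one, ← hM, pow_card_eq_one']
  rw [h1]
  refine ⟨(pw_all hP hm g hk).1, ?_⟩
  funext x
  rw [(pw_all hP hm g hk).2 x]
  unfold br
  by_cases hx : χ g x = 0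
  · rw [hx, map_zero]
    have h2 := (pw_all hP hm g hk).2 x
    rw [hx] at h2
    by_cases hM0 : M = 0
    · exfalso
      rw [hM0] at hM
      have h3 : g = 1 := by
        have := Nat.card_eq_one_iff_unique.1 hM
        obtain ⟨hs, -⟩ := this
        exact Subsingleton.elim _ _
      rw [h3, pw_one hP hm] at hx
      exact one_ne_zero hx
    · rw [zero_pow hM0]
  · have h2 := pw_card hP hm g hx
    have h3 : ‖χ g x‖ = 1 := by
      have h4 := congrArg norm h2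
      rw [norm_pow, norm_one] at h4
      exact (pow_eq_one_iff_of_nonneg (norm_nonneg _) hN.ne').1 h4
    have h5 : χ g x * conj (χ g x) = 1 := by
      rw [Complex.mul_conj, Complex.normSq_eq_norm_sq, h3]
      norm_num
    rw [hM, Nat.succ_eq_add_one, pow_succ'] at h2
    exact mul_left_cancel₀ hx (by rw [h2, h5])

end pow

theorem s_POW : S_POW := by
  intro K _ _ 𝒢 _ _ 𝔣 χ hP hm
  exact ⟨pw_one hP hm, fun g x hx => pw_card hP hm g hx, fun g k hk => pw_all hP hm g hk, fun g => pw_inv hP hm g⟩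

end Pool.Agent.L7h50.RL
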