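import Pool.Agent.L7h82.RL.Stm

set_option autoImplicit false
set_option linter.unusedSectionVars false

/-! Project RL: rationality of products of character sums (`S_RAT`). -/

namespace Pool.Agent.L7h50.RL

open NumberField IsDedekindDomain
open scoped ComplexConjugate
open Pool.Agent.L7h82.RL
open Pool.Agent.K4H55.CX (br)

/-- the values of the characters as values of polynomials at a root of unity -/
theorem exists_V (hPOW : S_POW) {K : Type} [Field K] [NumberField K] {𝒢 : Type} [CommGroup 𝒢] [Finite 𝒢]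
    {𝔣 : 𝒢 → Ideal (𝓞 K)} {χ : 𝒢 → 𝓞 K → ℂ} (hP : ∀ g, PK (𝔣 g) (χ g))
    (hm : ∀ g h x, χ g x ≠ 0 → χ h x ≠ 0 → χ (g * h) x = χ g x * χ h x) :
    ∃ V : 𝒢 → 𝓞 K → Polynomial ℤ, ∀ g x,
      Polynomial.aeval (Complex.exp (2 * Real.pi * Complex.I / (Nat.card 𝒢 : ℂ))) (V g x) = χ g x ∧
      ∀ k : ℕ, k.Coprime (Nat.card 𝒢) →
        Polynomial.aeval (Complex.exp (2 * Real.pi * Complex.I / (Nat.card 𝒢 : ℂ)) ^ k) (V g x) = χ (g ^ k) x := by
  obtain ⟨h1, h2, h3, -⟩ := hPOW K 𝒢 𝔣 χ hP hm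
  have hN : Nat.card 𝒢 ≠ 0 := Nat.card_pos.ne'
  have hζ := Complex.isPrimitiveRoot_exp (Nat.card 𝒢) hN
  have i1 : NeZero (Nat.card 𝒢) := ⟨hN⟩
  have key : ∀ g x, ∃ V : Polynomial ℤ,
      Polynomial.aeval (Complex.exp (2 * Real.pi * Complex.I / (Nat.card 𝒢 : ℂ))) V = χ g x ∧
      ∀ k : ℕ, k.Coprime (Nat.card 𝒢) →
        Polynomial.aeval (Complex.exp (2 * Real.pi * Complex.I / (Nat.card 𝒢 : ℂ)) ^ k) V = χ (g ^ k) x := by
    intro g x
    by_cases hx : χ g x = 0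
    · refine ⟨0, by rw [hx, map_zero], fun k hk => ?_⟩
      rw [map_zero, (h3 g k hk).2 x, hx]
      by_cases hk0 : k = 0
      · exfalso
        obtain ⟨k', hk'⟩ := exists_pow_eq_self_of_coprime (x := g) (hk.coprime_dvd_right (orderOf_dvd_natCard g))
        rw [hk0, pow_zero, one_pow] at hk'
        rw [← hk', h1] at hx
        exact one_ne_zero hx
      · rw [zero_pow hk0]
    · obtain ⟨e, -, he⟩ := hζ.eq_pow_of_pow_eq_one (h2 g x hx)
      refine ⟨Polynomial.X ^ e, by rw [map_pow, Polynomial.aeval_X, he], fun k hk => ?_⟩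
      rw [map_pow, Polynomial.aeval_X, ← pow_mul, mul_comm k e, pow_mul, he, (h3 g k hk).2 x]
  choose V hV using key
  exact ⟨V, hV⟩

theorem s_RAT : S_RAT := by
  intro hCYC hPOW K _ _ 𝒢 _ _ 𝔣 χ hP hm A hA
  obtain ⟨V, hV⟩ := exists_V hPOW hP hm
  obtain ⟨-, -, h3, h4⟩ := hPOW K 𝒢 𝔣 χ hP hm
  constructor
  · intro R Z
    have hval : ∀ g, Polynomial.aeval (Complex.exp (2 * Real.pi * Complex.I / (Nat.card 𝒢 : ℂ)))
        (∑ x ∈ R (𝔣 g), V g⁻¹ x * Polynomial.C (Z (𝔣 g) x)) =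
        ∑ x ∈ R (𝔣 g), conj (χ g x) * (Z (𝔣 g) x : ℂ) := by
      intro g
      rw [map_sum]
      refine Finset.sum_congr rfl fun x _ => ?_
      rw [map_mul, (hV g⁻¹ x).1, Polynomial.aeval_C, (h4 g).2]
      rfl
    obtain ⟨r, hr⟩ := hCYC 𝒢 A (fun g => ∑ x ∈ R (𝔣 g), V g⁻¹ x * Polynomial.C (Z (𝔣 g) x)) hA (by
      intro g _ k hk
      rw [hval, map_sum, (h3 g k hk).1]
      refine Finset.sum_congr rfl fun x _ => ?_
      rw [map_mul, (hV g⁻¹ x).2 k hk, Polynomial.aeval_C, inv_pow, (h4 (g ^ k)).2]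
      rfl)
    refine ⟨r, ?_⟩
    rw [← hr]
    exact Finset.prod_congr rfl fun g _ => (hval g).symm
  · intro P x
    obtain ⟨r, hr⟩ := hCYC 𝒢 A (fun g => P.comp (V g x)) hA (by
      intro g _ k hk
      rw [Polynomial.aeval_comp, Polynomial.aeval_comp, (hV g x).2 k hk, (hV (g ^ k) x).1])
    refine ⟨r, ?_⟩
    rw [← hr]
    refine Finset.prod_congr rfl fun g _ => ?_
    rw [Polynomial.aeval_comp, (hV g x).1]

end Pool.Agent.L7h50.RL
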